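import Mathlib
import Pool.Agent.H.MP_ad5f6c_nt.B

open MeasureTheory

namespace Pool.Agent.Results.MP_39ae23_nt.Fails

def Bad (θ₁ θ₂ x y : ℝ) : Prop :=
  ∃ ε : ℝ, 0 < ε ∧ ∃ Q : ℕ, ∀ q : ℤ, (Q : ℤ) ≤ |q| →
    ε ≤ √|(q : ℝ)| * max |q * θ₁ - x - round (q * θ₁ - x)| |q * θ₂ - y - round (q * θ₂ - y)|

theorem result : ∃ θ₁ θ₂ c : ℝ, MeasurableSet {x : ℝ | Bad θ₁ θ₂ x c} ∧
    0 < volume ({x : ℝ | Bad θ₁ θ₂ x c} ∩ Set.Ico (0 : ℝ) 1) ∧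
    volume ({x : ℝ | Bad θ₁ θ₂ x c} ∩ Set.Ico (0 : ℝ) 1) < 1 := by
  obtain ⟨θ₁, θ₂, c, -, h2, h3⟩ := Pool.Agent.H.MP_ad5f6c_nt.main
  refine ⟨θ₁, θ₂, c, Pool.Agent.H.MP_ad5f6c_nt.meas θ₁ θ₂ c, h2, ?_⟩
  have hsub : {x : ℝ | Bad θ₁ θ₂ x c} ∩ Set.Ico (0 : ℝ) 1 ⊆ {0} ∪ Set.Ico (1 / 4 : ℝ) 1 := by
    rintro x ⟨hx, h0, h1⟩
    rcases h0.eq_or_lt with h | h
    · exact Or.inl h.symm
    · exact Or.inr ⟨not_lt.1 fun h4 => h3 x ⟨h, h4⟩ hx, h1⟩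
  refine ((measure_mono hsub).trans (measure_union_le _ _)).trans_lt ?_
  rw [Real.volume_singleton, zero_add, Real.volume_Ico, ENNReal.ofReal_lt_one]
  norm_num

end Pool.Agent.Results.MP_39ae23_nt.Fails
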